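import Pool.Agent.Helper86_Men.Base

/-!
# Squad MEN: definitions for the Miller side and for the reaping theorem
-/

open MeasureTheory Set

namespace Pool.Agent.Men

section
variable {D : Type} [MeasurableSpace D] [Alph D] {I : Type} [LinearOrder I]

open Classical in
/-- The tree number `i` is restricted to the node `τ`, at the points where `τ` belongs to this
tree. -/
noncomputable def Cond.node (p : Cond D I) (i : I) (τ : Node) : Cond D I where
  T := fun j y => if j = i then (if τ ∈ p.T j y then sub (p.T j y) τ else p.T j y) else p.T j y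
  S := insert i p.S
  good := by
    intro j y
    split_ifs with h1 h2
    · exact Alph.good_sub _ (p.good j y) τ h2
    · exact p.good j y
    · exact p.good j y
  scount := p.scount.insert i
  full' := by
    intro j hj y
    rw [Set.mem_insert_iff, not_or] at hj
    rw [if_neg hj.1, p.full' j hj.2]
  dep := by
    intro j y y' h
    rw [p.dep j y y' (fun k hk hkj => h k (Or.inr hk) hkj)]
  meas := by
    intro j
    by_cases hj : j = i
    · simp only [hj, if_true]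
      exact Measurable.ite ((p.meas i) (measurableSet_mem_node τ))
        (measurable_sub measurable_const (p.meas i)) (p.meas i)
    · simp only [hj, if_false]
      exact p.meas j

theorem Cond.node_T (p : Cond D I) {i : I} {τ : Node} {y : Pt D I} (h : τ ∈ p.T i y) :
    (p.node i τ).T i y = sub (p.T i y) τ := by
  simp [Cond.node, h]

theorem Cond.node_T_of_not_mem (p : Cond D I) {i : I} {τ : Node} {y : Pt D I}
    (h : τ ∉ p.T i y) : (p.node i τ).T i y = p.T i y := by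
  simp [Cond.node, h]

theorem Cond.node_T_ne (p : Cond D I) {i j : I} (τ : Node) (y : Pt D I) (h : j ≠ i) :
    (p.node i τ).T j y = p.T j y := by
  simp [Cond.node, h]

theorem Cond.node_T_subset (p : Cond D I) (i j : I) (τ : Node) (y : Pt D I) :
    (p.node i τ).T j y ⊆ p.T j y := by
  by_cases h : j = i
  · subst h
    by_cases h2 : τ ∈ p.T j y
    · rw [p.node_T h2]; exact sub_subset _ _
    · rw [p.node_T_of_not_mem h2]
  · rw [p.node_T_ne τ y h]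

theorem Cond.node_le (p : Cond D I) (i : I) (τ : Node) : p.node i τ ≤ p :=
  Cond.le_of_T fun y _ j => p.node_T_subset i j τ y

theorem Cond.node_below {J : Set I} {p : Cond D I} (hp : p.Below J) {i : I} (hi : i ∈ J)
    (τ : Node) : (p.node i τ).Below J := by
  intro j hj y
  rw [p.node_T_ne τ y (by rintro rfl; exact hj hi)]
  exact hp j hj y

theorem Cond.node_restr_T {J : Set I} (p : Cond D I) {i : I} (hi : i ∉ J) (τ : Node) (j : I)
    (y : Pt D I) : ((p.node i τ).restr J).T j y = (p.restr J).T j y := by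
  by_cases hj : j ∈ J
  · rw [Cond.restr_T _ hj, Cond.restr_T _ hj, p.node_T_ne τ y (by rintro rfl; exact hi hj)]
  · rw [Cond.restr_T' _ hj, Cond.restr_T' _ hj]

end

namespace RR

section
variable {D : Type} [MeasurableSpace D] [Alph D] {I : Type} [LinearOrder I]

/-- Families of conditions which are closed under the basic operations (countable index set). -/
structure Clo (N : Set (Cond D I)) : Prop where
  count : N.Countable
  one : Cond.one D I ∈ N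
  restr : ∀ p ∈ N, ∀ J, IsLowerSet J → p.restr J ∈ N
  glue : ∀ r ∈ N, ∀ p ∈ N, ∀ J, IsLowerSet J → Cond.glue r p J ∈ N
  node : ∀ p ∈ N, ∀ i τ, p.node i τ ∈ N

/-- The same for arbitrary index sets. -/
structure CloG (N : Set (Cond D I)) : Prop where
  count : N.Countable
  one : Cond.one D I ∈ N
  restr : ∀ p ∈ N, ∀ J, IsLowerSet J → p.restr J ∈ N
  glue : ∀ r ∈ N, ∀ p ∈ N, ∀ J, IsLowerSet J → Cond.glue r p J ∈ N
  node : ∀ p ∈ N, ∀ r ∈ N, ∀ i ∈ r.S, ∀ τ, p.node i τ ∈ N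

/-- `E` is dense below `P`, with respect to strengthenings of the part of `P` on `J`. -/
def RDense (N : Set (Cond D I)) (J : Set I) (E : Set (Cond D I)) (P : Cond D I) : Prop :=
  ∀ h ∈ N, h.Below J → h ≤ P.restr J → ∃ g ∈ N, g ≤ Cond.glue h P J ∧ g ∈ E

end

/-- Functions with measurable fibres. -/
def Meas {α β : Type*} [MeasurableSpace α] (f : α → β) : Prop :=
  ∀ c, MeasurableSet {a | f a = c}

/-- Generic conditions: `p` is a condition on the coordinates in `J`; `G y` consists of elements of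
`N` (on the coordinates in `J`) whose bodies contain `y`, is closed upwards, and meets the sets
from `𝒟` (in the strong sense of two step iterations). -/
structure Gen {Λ : Type} [LinearOrder Λ] (N : Set (Cond ℕ Λ)) (𝒟 : Set (Set (Cond ℕ Λ)))
    (J : Set Λ) (p : Cond ℕ Λ) (G : Pt ℕ Λ → Set (Cond ℕ Λ)) : Prop where
  below : p.Below J
  mem : ∀ y, ∀ r ∈ G y, r ∈ N ∧ r.Below J
  up : ∀ y, ∀ r ∈ G y, ∀ s ∈ N, s.Below J → r ≤ s → s ∈ G y
  dep : DepFun J G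
  meas : ∀ r, MeasurableSet {y | r ∈ G y}
  pt : ∀ y ∈ p.body, ∀ r ∈ G y, y ∈ r.body
  gen : ∀ P ∈ N, ∀ y ∈ p.body, P.restr J ∈ G y → ∀ E ∈ 𝒟, RDense N J E P →
    ∃ g ∈ N, g ≤ P ∧ g ∈ E ∧ g.restr J ∈ G y

/-- Extension of generic conditions from `J` to `J'`. -/
def RelS {Λ : Type} [LinearOrder Λ] (N : Set (Cond ℕ Λ)) (𝒟 : Set (Set (Cond ℕ Λ)))
    (J J' : Set Λ) : Prop :=
  ∀ p G, Gen N 𝒟 J p G → ∀ r : Pt ℕ Λ → N, Meas r → DepFun J r →
    (∀ y ∈ p.body, (r y).1.restr J ∈ G y) →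
    ∃ p' G', Gen N 𝒟 J' p' G' ∧ (∀ i ∈ J, ∀ y, p'.T i y = p.T i y) ∧
      ∀ y ∈ p'.body, (r y).1.restr J' ∈ G' y

/-- At the coordinate `j` the trees of `P` have the constant splitting stem `σ`. -/
def Stem {Λ : Type} [LinearOrder Λ] (P : Cond ℕ Λ) (j : Λ) (σ : Node) : Prop :=
  ∀ y ∈ P.body, (∀ ρ ∈ P.T j y, ρ <+: σ ∨ σ <+: ρ) ∧ σ ∈ P.T j y ∧
    {a | σ ++ [a] ∈ P.T j y}.Infinite

/-- A set of pairs of points depends only on the coordinates in `L` of the first point. -/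
def DepP {I Λ : Type} (L : Set Λ) (X : Set (Pt ℕ Λ × Pt (Fin 2) I)) : Prop :=
  ∀ y y' x, (∀ i ∈ L, y i = y' i) → ((y, x) ∈ X ↔ (y', x) ∈ X)

/-- The infinite sets of the ground model are reaping: names on the coordinates in `L` of the
Miller side. -/
def Reap (I Λ : Type) [LinearOrder I] [LinearOrder Λ] (L : Set Λ) : Prop :=
  ∀ F : ℕ → Set (Pt ℕ Λ × Pt (Fin 2) I), (∀ k, MeasurableSet (F k)) → (∀ k, DepP L (F k)) →
  ∀ (p : Cond ℕ Λ) (s : Cond (Fin 2) I), p.Below L → ∀ B : Set ℕ, B.Infinite →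
    ∃ p' ≤ p, p'.Below L ∧ ∃ s' ≤ s, ∃ B' ⊆ B, B'.Infinite ∧ ∃ μ : Bool,
      ∀ k ∈ B', ∀ y ∈ p'.body, ∀ x ∈ s'.body, ((y, x) ∈ F k ↔ μ = true)

/-- Countably many names at the same time. -/
def Reapw (I Λ : Type) [LinearOrder I] [LinearOrder Λ] (L : Set Λ) : Prop :=
  ∀ F : ℕ → ℕ → Set (Pt ℕ Λ × Pt (Fin 2) I), (∀ i k, MeasurableSet (F i k)) →
  (∀ i k, DepP L (F i k)) →
  ∀ (p : Cond ℕ Λ) (s : Cond (Fin 2) I), p.Below L → ∀ B : Set ℕ, B.Infinite →
    ∃ p' ≤ p, p'.Below L ∧ ∃ s' ≤ s, ∃ B' ⊆ B, B'.Infinite ∧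
      ∃ (A : ℕ → Set (Pt ℕ Λ × Pt (Fin 2) I)) (thr : ℕ → Pt ℕ Λ → ℕ),
        (∀ i, MeasurableSet (A i)) ∧ (∀ i, DepP L (A i)) ∧ (∀ i, Measurable (thr i)) ∧
        (∀ i, DepFun L (thr i)) ∧
        ∀ i, ∀ y ∈ p'.body, ∀ x ∈ s'.body, ∀ k ∈ B', thr i y ≤ k → ((y, x) ∈ F i k ↔ (y, x) ∈ A i)

/-- Control: the elements of `A` are decided (to belong to `W`) by the values at the splitting node
`σ` of the coordinate `j`, in the sense of the countable family `N`. -/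
def Ctl {Λ : Type} [LinearOrder Λ] (N : Set (Cond ℕ Λ)) (W : ℕ → Set (Pt ℕ Λ)) (P : Cond ℕ Λ)
    (j : Λ) (σ : Node) (A : Set ℕ) : Prop :=
  ∀ k ∈ A, ∀ h ∈ N, h.Below (Iio j) → h ≤ P.restr (Iio j) →
    ∃ h' ∈ N, h'.Below (Iio j) ∧ h' ≤ h ∧ ∃ m : ℕ, ∀ y ∈ P.body, y ∈ h'.body →
      m ≤ y j σ.length → y ∈ W k

/-- States of the final constructions. -/
structure Inv {Λ : Type} [LinearOrder Λ] (N : Set (Cond ℕ Λ)) (L : Set Λ)
    (W : ℕ → Set (Pt ℕ Λ)) (P : Cond ℕ Λ) (j : Λ) (σ : Node) (A : Set ℕ) : Prop where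
  mem : P ∈ N
  below : P.Below L
  stem : Stem P j σ
  ctl : Ctl N W P j σ A

/-- The output of lemma PRE, input of lemma SEQP: decided states are dense. -/
structure Pre {Λ : Type} [LinearOrder Λ] (N : Set (Cond ℕ Λ)) (L : Set Λ) (lev : ℕ → Λ)
    (W : ℕ → Set (Pt ℕ Λ)) (𝓑 : Set (Set ℕ)) (P1 : Cond ℕ Λ) (b1 : Set ℕ) : Prop where
  clo : Clo N
  count : 𝓑.Countable
  inf : ∀ b ∈ 𝓑, b.Infinite
  tail : ∀ b ∈ 𝓑, ∀ m, b ∩ Ioi m ∈ 𝓑
  P1N : P1 ∈ N
  P1L : P1.Below L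
  b1B : b1 ∈ 𝓑
  levL : ∀ n, lev n ∈ L
  depW : ∀ k, DepOn L (W k)
  digit : ∀ P ∈ N, ∀ n σ, Stem P (lev n) σ → ∀ h ∈ N, h.Below (Iio (lev n)) →
    h ≤ P.restr (Iio (lev n)) → ∀ a0 : ℕ, ∃ a ≥ a0, ∃ h' ∈ N, h'.Below (Iio (lev n)) ∧ h' ≤ h ∧
      ∀ y ∈ h'.body, σ ++ [a] ∈ P.T (lev n) y
  dense : ∀ P ∈ N, P ≤ P1 → P.Below L → ∀ b ∈ 𝓑, b ⊆ b1 → ∀ n, ∃ n' ≥ n, ∃ P' ≤ P,
    ∃ σ, ∃ b' ∈ 𝓑, b' ⊆ b ∧ Inv N L W P' (lev n') σ b'

/-- The next states: `c`, `b` is the sequence of finite and infinite parts. -/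
def Est {Λ : Type} [LinearOrder Λ] (N : Set (Cond ℕ Λ)) (L : Set Λ) (lev : ℕ → Λ)
    (W : ℕ → Set (Pt ℕ Λ)) (c : ℕ → Finset ℕ) (b : ℕ → Set ℕ) (P : Cond ℕ Λ) (n : ℕ) (σ : Node)
    (m a0 : ℕ) : Set (Cond ℕ Λ) :=
  {g | ∃ a ≥ a0, (∀ y ∈ g.body, g.T (lev n) y ⊆ sub (P.T (lev n) y) (σ ++ [a])) ∧
    ∃ m' > m, ∃ n' > n, ∃ σ', Inv N L W g (lev n') σ' (↑(c m') ∪ b m') ∧
      ∀ k ∈ c m', g.body ⊆ W k}

end RR

end Pool.Agent.Men
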