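import Pool.Agent.Helper22_Men.Stmts

/-!
# Squad MEN, module EX
-/

open MeasureTheory Set

namespace Pool.Agent.Men.RR.H22

section
variable {I Λ : Type} [LinearOrder I] [LinearOrder Λ]

/-- The pair `(P, t)` decides `F k`. -/
def Dcd (F : ℕ → Set (Pt ℕ Λ × Pt (Fin 2) I)) (k : ℕ) (P : Cond ℕ Λ) (t : Cond (Fin 2) I) :
    Prop := P.body ×ˢ t.body ⊆ F k ∨ Disjoint (P.body ×ˢ t.body) (F k)

theorem Dcd.mono {F : ℕ → Set (Pt ℕ Λ × Pt (Fin 2) I)} {k : ℕ} {P P' : Cond ℕ Λ}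
    {t t' : Cond (Fin 2) I} (h : Dcd F k P t) (hP : P' ≤ P) (ht : t' ≤ t) : Dcd F k P' t' := by
  have hs : P'.body ×ˢ t'.body ⊆ P.body ×ˢ t.body := Set.prod_mono hP ht
  rcases h with h | h
  · exact Or.inl (hs.trans h)
  · exact Or.inr (h.mono_left hs)

/-- The sets of conditions which decide the first `i` sets, together with a finite set which covers
`s`. -/
def DDs (N' : Set (Cond ℕ Λ)) (F : ℕ → Set (Pt ℕ Λ × Pt (Fin 2) I)) (s : Cond (Fin 2) I) (i : ℕ) :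
    Set (Cond ℕ Λ) :=
  {P | P ∈ N' ∧ ∃ Fl : List (Cond (Fin 2) I), (∀ t ∈ Fl, ∀ k < i, Dcd F k P t) ∧
    ∀ x ∈ s.body, ∃ t ∈ Fl, x ∈ t.body}

end

theorem hull_read (hAbs : AbsStmt) (hHull : HullStmt) (hClo : CloStmt) (hDich : DichStmt)
    (I Λ : Type) [LinearOrder I] [WellFoundedLT I] [LinearOrder Λ] [WellFoundedLT Λ] [Countable Λ]
    (F : ℕ → Set (Pt ℕ Λ × Pt (Fin 2) I)) (hF : ∀ k, MeasurableSet (F k))
    (p : Cond ℕ Λ) (s : Cond (Fin 2) I) :
    ∃ (N' : Set (Cond ℕ Λ)) (s1 : Cond (Fin 2) I), Clo N' ∧ p ∈ N' ∧ s1 ≤ s ∧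
      ∀ i, ∀ P ∈ N', ∃ P' ∈ DDs N' F s1 i, P' ≤ P := by
  classical
  obtain ⟨Op, hOp⟩ := hAbs I
  obtain ⟨OpM, hOpM⟩ := hClo.1 Λ
  have hch : ∀ (k : ℕ) (P : Cond ℕ Λ) (t : Cond (Fin 2) I), ∃ P' t', P' ≤ P ∧ t' ≤ t ∧
      Dcd F k P' t' := by
    intro k P t
    obtain ⟨P', h1, _, t', h2, h3⟩ := hDich I Λ univ isLowerSet_univ (F k) (hF k)
      (fun y y' x h => by rw [show y = y' from funext fun i => h i trivial]) P t
      (Cond.below_univ P)
    exact ⟨P', t', h1, h2, h3⟩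
  choose dM dS h1 h2 h3 using hch
  obtain ⟨N', N, N'', hN'c, hNc, _, hpN, hsN, huN, hcl⟩ :=
    hHull (Cond ℕ Λ) (Cond (Fin 2) I) Unit
    (fun n a a' b _ _ => if n % 2 = 0 then OpM (n / 2) a a' else dM (n / 2) a b)
    (fun n a _ b b' _ => if n % 2 = 0 then Op (n / 2) b b' else dS (n / 2) a b)
    (fun _ _ _ _ _ c => c) {p} {s} {()} (countable_singleton _) (countable_singleton _)
    (countable_singleton _)
  have hpN : p ∈ N' := hpN rfl
  have hsN : s ∈ N := hsN rfl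
  have huN : () ∈ N'' := huN rfl
  have hcM : ∀ k, ∀ a ∈ N', ∀ b ∈ N', OpM k a b ∈ N' := by
    intro k a ha b hb
    have := (hcl (2 * k) a ha b hb s hsN s hsN () huN).1
    simpa using this
  have hcS : ∀ k, ∀ a ∈ N, ∀ b ∈ N, Op k a b ∈ N := by
    intro k a ha b hb
    have := (hcl (2 * k) p hpN p hpN a ha b hb () huN).2.1
    simpa using this
  have hdM : ∀ k, ∀ P ∈ N', ∀ t ∈ N, dM k P t ∈ N' := by
    intro k P hP t ht
    have := (hcl (2 * k + 1) P hP P hP t ht t ht () huN).1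
    have e1 : (2 * k + 1) % 2 = 1 := by omega
    have e2 : (2 * k + 1) / 2 = k := by omega
    simpa [e1, e2] using this
  have hdS : ∀ k, ∀ P ∈ N', ∀ t ∈ N, dS k P t ∈ N := by
    intro k P hP t ht
    have := (hcl (2 * k + 1) P hP P hP t ht t ht () huN).2.1
    have e1 : (2 * k + 1) % 2 = 1 := by omega
    have e2 : (2 * k + 1) / 2 = k := by omega
    simpa [e1, e2] using this
  have hden : ∀ i, ∀ P ∈ N', ∀ t ∈ N, ∃ P' ∈ N', P' ≤ P ∧ ∃ t' ∈ N, t' ≤ t ∧
      ∀ k < i, Dcd F k P' t' := by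
    intro i
    induction i with
    | zero => exact fun P hP t ht => ⟨P, hP, le_rfl, t, ht, le_rfl, fun k hk => by omega⟩
    | succ i ih =>
      intro P hP t ht
      obtain ⟨P1, a1, a2, t1, a3, a4, a5⟩ := ih P hP t ht
      refine ⟨dM i P1 t1, hdM i P1 a1 t1 a3, (h1 i P1 t1).trans a2, dS i P1 t1,
        hdS i P1 a1 t1 a3, (h2 i P1 t1).trans a4, fun k hk => ?_⟩
      rcases Nat.lt_succ_iff_lt_or_eq.mp hk with hk | rfl
      · exact (a5 k hk).mono (h1 i P1 t1) (h2 i P1 t1)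
      · exact h3 k P1 t1
  have hclo : Clo N' := hOpM N' hN'c ⟨p, hpN⟩ hcM
  have : Countable N' := hN'c.to_subtype
  obtain ⟨s1, b1, b2⟩ := hOp N' N hNc hcS (fun i t P => ∀ k < i, Dcd F k P.1 t)
    (fun i t _ t' _ P P' h ht hP k hk => (h k hk).mono hP ht)
    (fun i t ht P => by
      obtain ⟨P', c1, c2, t', c3, c4, c5⟩ := hden i P.1 P.2 t ht
      exact ⟨t', c3, c4, ⟨P', c1⟩, c2, c5⟩) s hsN
  refine ⟨N', s1, hclo, hpN, b1, fun i P hP => ?_⟩
  obtain ⟨P', c1, Fl, c2, c3⟩ := b2 i ⟨P, hP⟩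
  exact ⟨P'.1, ⟨P'.2, Fl, fun t ht => (c2 t ht).2, c3⟩, c1⟩

/-- The increasing enumeration of the successors of the node `σ`. -/
theorem succ_fun {Λ : Type} [LinearOrder Λ] (p : Cond ℕ Λ) (j : Λ) (σ : Node) :
    ∃ a : ℕ → Pt ℕ Λ → ℕ, (∀ i, Measurable (a i)) ∧ (∀ i, DepFun (Iio j) (a i)) ∧
      (∀ y, StrictMono fun i => a i y) ∧
      ∀ y, {b | σ ++ [b] ∈ p.T j y}.Infinite → ∀ i, σ ++ [a i y] ∈ p.T j y := by
  classical
  let P : Pt ℕ Λ → ℕ → Prop := fun y b => {b | σ ++ [b] ∈ p.T j y}.Infinite → σ ++ [b] ∈ p.T j y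
  have hP : ∀ y n, ∃ b, n ≤ b ∧ P y b := by
    intro y n
    by_cases h : {b | σ ++ [b] ∈ p.T j y}.Infinite
    · obtain ⟨b, h1, h2⟩ := h.exists_gt n
      exact ⟨b, h2.le, fun _ => h1⟩
    · exact ⟨n, le_rfl, fun h' => absurd h' h⟩
  have hPm : ∀ b, MeasurableSet {y | P y b} := by
    intro b
    exact measurableSet_imp ((p.meas j) (measurableSet_infinite_succ σ))
      ((p.meas j) (measurableSet_mem_node _))
  have hPd : ∀ y y' : Pt ℕ Λ, (∀ i ∈ Iio j, y i = y' i) → P y = P y' := by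
    intro y y' h
    have : p.T j y = p.T j y' := p.T_congr fun i hi => h i hi
    simp only [P, this]
  -- recursion
  let a : ℕ → Pt ℕ Λ → ℕ := fun n => Nat.rec (fun y => Nat.find (hP y 0))
    (fun _ f y => Nat.find (hP y (f y + 1))) n
  have ha0 : ∀ y, a 0 y = Nat.find (hP y 0) := fun _ => rfl
  have haS : ∀ n y, a (n + 1) y = Nat.find (hP y (a n y + 1)) := fun _ _ => rfl
  have hm : ∀ i, Measurable (a i) := by
    intro i
    induction i with
    | zero =>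
      refine measurable_find (p := fun y b => 0 ≤ b ∧ P y b) (fun y => hP y 0) (fun k => ?_)
      simpa using hPm k
    | succ i ih =>
      refine measurable_find (p := fun y b => a i y + 1 ≤ b ∧ P y b)
        (fun y => hP y (a i y + 1)) (fun k => ?_)
      exact (measurableSet_le (ih.add_const 1) measurable_const).inter (hPm k)
  have hd : ∀ i, DepFun (Iio j) (a i) := by
    intro i
    induction i with
    | zero =>
      intro y y' h
      rw [ha0, ha0]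
      congr 1
      funext b
      rw [hPd y y' h]
    | succ i ih =>
      intro y y' h
      rw [haS, haS]
      congr 1
      funext b
      rw [hPd y y' h, ih y y' h]
  refine ⟨a, hm, hd, fun y => strictMono_nat_of_lt_succ fun n => ?_, fun y hy i => ?_⟩
  · rw [haS]
    exact Nat.lt_of_succ_le (Nat.find_spec (hP y (a n y + 1))).1
  · cases i with
    | zero => exact (Nat.find_spec (hP y 0)).2 hy
    | succ i => exact (Nat.find_spec (hP y (a i y + 1))).2 hy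

theorem ex (hAbs : AbsStmt) (hRel : RelStmt) (hHull : HullStmt) (hClo : CloStmt)
    (hMcs : McsStmt) (hDich : DichStmt) (hJoin : JoinStmt) : ExStmt := by
  classical
  intro I Λ _ _ _ _ _ j hR hRW L hL hjL F hF hFd p s σ hp hst B hB
  obtain ⟨N', sa, hclo, hpN, hsa, hden⟩ := hull_read hAbs hHull hClo hDich I Λ F hF p s
  have hJl : IsLowerSet (Iio j) := isLowerSet_Iio j
  have hJL : Iio j ⊆ L := fun i hi => hL (le_of_lt hi) hjL
  -- a generic condition below `j`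
  obtain ⟨hG, hRelS⟩ := hRel Λ N' hclo (range (DDs N' F sa)) (countable_range _)
  have hone : ∀ P ∈ N', P.restr ∅ ∈ {r : Cond ℕ Λ | r ∈ N' ∧ r.Below ∅} := fun P hP =>
    ⟨hclo.restr P hP ∅ (fun _ _ _ h => h.elim), P.restr_below ∅⟩
  obtain ⟨p0, G0, hG0, -, hp0⟩ := hRelS ∅ (Iio j) (fun _ _ _ h => h.elim) hJl (empty_subset _)
    _ _ hG (fun _ => ⟨p, hpN⟩) (fun c => MeasurableSet.const _) (fun _ _ _ => rfl)
    (fun y _ => hone p hpN)
  have hp0 : ∀ y ∈ p0.body, p.restr (Iio j) ∈ G0 y := hp0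
  have hp0le : p0 ≤ p.restr (Iio j) := fun y hy => hG0.pt y hy _ (hp0 y hy)
  -- the stem
  have hst0 : ∀ y ∈ p0.body, (∀ ρ ∈ p.T j y, ρ <+: σ ∨ σ <+: ρ) ∧ σ ∈ p.T j y ∧
      {a | σ ++ [a] ∈ p.T j y}.Infinite := by
    intro y hy
    have h1 : y ∈ p.On (Iio j) := by
      rw [← p.restr_body]; exact hp0le hy
    obtain ⟨y', h2, h3⟩ := p.exists_ext (Iio j) hJl y h1
    have h4 := hst y' h2
    rwa [p.T_congr (y' := y) (fun k hk => h3 k hk)] at h4
  obtain ⟨a, ham, had, hamono, hasucc⟩ := succ_fun p j σ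
  have hasucc : ∀ y ∈ p0.body, ∀ i, σ ++ [a i y] ∈ p.T j y := fun y hy i =>
    hasucc y (hst0 y hy).2.2 i
  -- the conditions `r i y`
  have hone' : Nonempty N' := ⟨⟨p, hpN⟩⟩
  have hcN : Countable N' := hclo.count.to_subtype
  have hch : ∀ i, ∃ r : Pt ℕ Λ → N', Meas r ∧ DepFun (Iio j) r ∧ ∀ y ∈ p0.body,
      (r y).1 ≤ p.node j (σ ++ [a i y]) ∧ (r y).1 ∈ DDs N' F sa i ∧
        (r y).1.restr (Iio j) ∈ G0 y := by
    intro i
    obtain ⟨r, h1, h2, h3⟩ := hMcs (Pt ℕ Λ) N' (fun y c =>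
      c.1 ≤ p.node j (σ ++ [a i y]) ∧ c.1 ∈ DDs N' F sa i ∧ c.1.restr (Iio j) ∈ G0 y) (by
        intro c
        refine MeasurableSet.inter ?_ (MeasurableSet.inter (MeasurableSet.const _) ?_)
        · exact (ham i) (MeasurableSet.of_discrete (s := {n | c.1 ≤ p.node j (σ ++ [n])}))
        · exact hG0.meas _)
    refine ⟨r, h1, fun y y' h => h3 y y' (fun c => ?_), fun y hy => h2 y ?_⟩
    · rw [had i y y' h, hG0.dep y y' h]
    · have hPN : p.node j (σ ++ [a i y]) ∈ N' := hclo.node p hpN j _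
      have hPG : (p.node j (σ ++ [a i y])).restr (Iio j) ∈ G0 y := by
        refine hG0.up y _ (hp0 y hy) _ (hclo.restr _ hPN _ hJl) (Cond.restr_below _ _) ?_
        exact Cond.le_of_T fun z _ k => by
          rw [Cond.node_restr_T p (J := Iio j) (i := j) (fun h => lt_irrefl _ h)]
      obtain ⟨g, g1, g2, g3, g4⟩ := hG0.gen _ hPN y hy hPG (DDs N' F sa i) ⟨i, rfl⟩ (by
        intro h hh hb hle
        obtain ⟨P', c1, c2⟩ := hden i _ (hclo.glue h hh _ hPN _ hJl)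
        exact ⟨P', c1.1, c2, c1⟩)
      exact ⟨⟨g, g1⟩, g2, g3, g4⟩
  choose r hrm hrd hr using hch
  -- the conditions `P i`
  have hPx : ∀ i, ∃ (P : Cond ℕ Λ), P.Below L ∧ (∀ m < j, ∀ y, P.T m y = p0.T m y) ∧
      ∀ y ∈ P.body, y ∈ (r i y).1.On L := by
    intro i
    obtain ⟨P, G, h1, h2, h3⟩ := hRelS (Iio j) L hJl hL hJL p0 G0 hG0 (r i) (hrm i) (hrd i)
      (fun y hy => (hr i y hy).2.2)
    refine ⟨P, h1.below, fun m hm y => h2 m hm y, fun y hy => ?_⟩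
    rw [← Cond.restr_body]
    exact h1.pt y hy _ (h3 y hy)
  choose P hPL hPp0 hPr using hPx
  have hPon : ∀ i, ∀ y ∈ p0.body, y ∈ (P i).On (Iio j) := by
    intro i y hy k hk
    rw [hPp0 i k hk]
    exact hy k
  have honP : ∀ i, ∀ y ∈ (P i).body, y ∈ p0.body := by
    intro i y hy
    rw [hG0.below.body_eq]
    intro k hk
    rw [← hPp0 i k hk]
    exact hy k
  have hPtree : ∀ i, ∀ y ∈ p0.body, (P i).T j y ⊆ sub (p.T j y) (σ ++ [a i y]) := by
    intro i y hy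
    have h1 : (P i).T j y ⊆ (r i y).1.T j y := by
      apply subset_of_body ((P i).good j y)
      intro t ht
      obtain ⟨y', h2, h3, h4⟩ := (P i).exists_ext_at j (hPon i y hy) ht
      have h5 := hPr i y' h2 j hjL
      rw [h4, hrd i y' y (fun k hk => h3 k hk), Cond.T_congr _ h3] at h5
      exact h5
    have h2 : (r i y).1.T j y ⊆ (p.node j (σ ++ [a i y])).T j y := by
      apply Cond.T_subset_on (hr i y hy).1
      rw [← Cond.restr_body]
      exact hG0.pt y hy _ (hr i y hy).2.2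
    rw [Cond.node_T _ (hasucc y hy i)] at h2
    exact h1.trans h2
  -- the names `H k`
  have hlist : ∀ i (c : N'), ∃ Fl : List (Cond (Fin 2) I), c.1 ∈ DDs N' F sa i →
      (∀ t ∈ Fl, ∀ k < i, Dcd F k c.1 t) ∧ ∀ x ∈ sa.body, ∃ t ∈ Fl, x ∈ t.body := by
    intro i c
    by_cases h : c.1 ∈ DDs N' F sa i
    · obtain ⟨Fl, h1⟩ := h.2
      exact ⟨Fl, fun _ => h1⟩
    · exact ⟨[], fun h' => absurd h' h⟩
  choose Fl hFl using hlist
  let H : ℕ → ℕ → Set (Pt ℕ Λ × Pt (Fin 2) I) := fun k i =>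
    {z | k < i ∧ ∃ t ∈ Fl i (r i z.1), z.2 ∈ t.body ∧ (r i z.1).1.body ×ˢ t.body ⊆ F k}
  have hHm : ∀ k i, MeasurableSet (H k i) := by
    intro k i
    have : H k i = ⋃ c : N', {z : Pt ℕ Λ × Pt (Fin 2) I | r i z.1 = c} ∩
        (⋃ t ∈ {t : Cond (Fin 2) I | k < i ∧ t ∈ Fl i c ∧ c.1.body ×ˢ t.body ⊆ F k},
          {z : Pt ℕ Λ × Pt (Fin 2) I | z.2 ∈ t.body}) := by
      ext z
      simp only [H, mem_ofPred_eq, mem_iUnion, mem_inter_iff, exists_prop]
      constructor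
      · rintro ⟨h1, t, h2, h3, h4⟩
        exact ⟨r i z.1, rfl, t, ⟨h1, h2, h4⟩, h3⟩
      · rintro ⟨c, rfl, t, ⟨h1, h2, h4⟩, h3⟩
        exact ⟨h1, t, h2, h3, h4⟩
    rw [this]
    refine MeasurableSet.iUnion fun c => MeasurableSet.inter (measurable_fst (hrm i c)) ?_
    refine MeasurableSet.biUnion ?_ fun t _ => measurable_snd t.measurableSet_body
    exact ((Fl i c).toFinset.finite_toSet.subset fun t ht => by
      simpa using ht.2.1).countable
  have hHd : ∀ k i, DepP (Iio j) (H k i) := by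
    intro k i y y' x h
    simp only [H, mem_ofPred_eq]
    rw [hrd i y y' h]
  have hHF : ∀ k i, k < i → ∀ y ∈ (P i).body, ∀ x ∈ sa.body, ((y, x) ∈ F k ↔ (y, x) ∈ H k i) := by
    intro k i hki y hy x hx
    obtain ⟨y', h1, h2⟩ := (r i y).1.exists_ext L hL y (hPr i y hy)
    obtain ⟨h3, h4⟩ := hFl i (r i y) (hr i y (honP i y hy)).2.1
    have h5 : (y, x) ∈ F k ↔ (y', x) ∈ F k := hFd k y y' x fun m hm => (h2 m hm).symm
    obtain ⟨t, ht, hxt⟩ := h4 x hx
    rw [h5]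
    constructor
    · intro h6
      refine ⟨hki, t, ht, hxt, ?_⟩
      rcases h3 t ht k hki with h7 | h7
      · exact h7
      · exact absurd h6 (Set.disjoint_left.1 h7 ⟨h1, hxt⟩)
    · rintro ⟨_, t', ht', hxt', h7⟩
      exact h7 ⟨h1, hxt'⟩
  -- reaping
  obtain ⟨p1, hp1, hp1b, s1, hs1, B1, -, hB1, A, thr, hAm, hAd, hthm, hthd, hA⟩ :=
    hRW H hHm hHd p0 sa hG0.below univ infinite_univ
  obtain ⟨p2, hp2, hp2b, s2, hs2, B', hB'B, hB', μ, hμ⟩ := hR A hAm hAd p1 s1 hp1b B hB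
  obtain ⟨P', hst', hP'2, hP'b, hP'L⟩ := hJoin Λ j σ p0 hG0.below a P ham had
    (fun y _ => hamono y) hPp0 (fun i y hy ρ hρ => (hPtree i y hy hρ).2) B1 hB1 p2
    (hp2.trans hp1) hp2b
  have hP'L : P'.Below L := hP'L L hjL hL hPL
  have hP'p2 : ∀ y ∈ P'.body, y ∈ p2.body := by
    intro y hy
    rw [hp2b.body_eq]
    intro k hk
    rw [← hP'2 k hk]
    exact hy k
  refine ⟨P', ?_, hP'L, hst', s2, (hs2.trans hs1).trans hsa, B', hB'B, hB', μ, ?_⟩
  · intro y hy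
    obtain ⟨i, _, h1, h2⟩ := hP'b y hy
    rw [hp.body_eq]
    exact Cond.on_mono (((hr i y (honP i y h1)).1).trans (p.node_le j _)) hL (hPr i y h1)
  · intro k hk
    refine ⟨fun y => a (max (thr k y) (k + 1)) y, ?_, ?_, ?_⟩
    · refine measurable_to_countable' fun c => ?_
      have : (fun y => a (max (thr k y) (k + 1)) y) ⁻¹' {c} =
          ⋃ n, {y | max (thr k y) (k + 1) = n} ∩ {y | a n y = c} := by
        ext y; simp
      rw [this]
      refine MeasurableSet.iUnion fun n => MeasurableSet.inter ?_ ?_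
      · exact ((hthm k).max measurable_const) (measurableSet_singleton n)
      · exact (ham n) (measurableSet_singleton c)
    · intro y y' h
      simp only
      rw [hthd k y y' h, had _ y y' h]
    · intro y hy x hx hι
      obtain ⟨i, hi, h1, h2⟩ := hP'b y hy
      rw [h2, (hamono y).le_iff_le] at hι
      have h3 : thr k y ≤ i := (le_max_left _ _).trans hι
      have h4 : k < i := lt_of_lt_of_le (Nat.lt_succ_self k) ((le_max_right _ _).trans hι)
      have hy2 := hP'p2 y hy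
      rw [hHF k i h4 y h1 x (hs1 (hs2 hx)), hA k y (hp2 hy2) x (hs2 hx) i hi h3]
      exact hμ k hk y hy2 x hx

end Pool.Agent.Men.RR.H22
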