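import Pool.Agent.Helper22_Men.Defs

/-!
# Squad MEN: statements for the Miller side, general facts about the product, and reaping
-/

open MeasureTheory Set

namespace Pool.Agent.Men.RR

/-! ## Preparations -/

/-- MCS: measurable countable choice. -/
def McsStmt : Prop :=
  ∀ (α C : Type) [MeasurableSpace α] [Countable C] [Nonempty C] (V : α → C → Prop),
    (∀ c, MeasurableSet {a | V a c}) → ∃ f : α → C, Meas f ∧ (∀ a, (∃ c, V a c) → V a (f a)) ∧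
      ∀ a a', (∀ c, V a c ↔ V a' c) → f a = f a'

/-- SEQ: every task occurs infinitely often. -/
def SeqStmt : Prop :=
  ∀ (K : Type) [Countable K] [Nonempty K], ∃ e : ℕ → K, ∀ k n, ∃ m ≥ n, e m = k

/-- HULL: countable hulls. -/
def HullStmt : Prop :=
  ∀ (X Y Z : Type) (f : ℕ → X → X → Y → Y → Z → X) (g : ℕ → X → X → Y → Y → Z → Y)
    (h : ℕ → X → X → Y → Y → Z → Z) (W : Set X) (W' : Set Y) (W'' : Set Z),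
    W.Countable → W'.Countable → W''.Countable →
    ∃ (N : Set X) (N' : Set Y) (N'' : Set Z), N.Countable ∧ N'.Countable ∧ N''.Countable ∧
      W ⊆ N ∧ W' ⊆ N' ∧ W'' ⊆ N'' ∧ ∀ k, ∀ a ∈ N, ∀ a' ∈ N, ∀ b ∈ N', ∀ b' ∈ N', ∀ c ∈ N'',
        f k a a' b b' c ∈ N ∧ g k a a' b b' c ∈ N' ∧ h k a a' b b' c ∈ N''

/-- CLO: the closure properties are given by countably many operations. -/
def CloStmt : Prop :=
  (∀ (Λ : Type) [LinearOrder Λ] [WellFoundedLT Λ] [Countable Λ],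
    ∃ Op : ℕ → Cond ℕ Λ → Cond ℕ Λ → Cond ℕ Λ, ∀ N : Set (Cond ℕ Λ), N.Countable → N.Nonempty →
      (∀ k, ∀ a ∈ N, ∀ b ∈ N, Op k a b ∈ N) → Clo N) ∧
  (∀ (Λ : Type) [LinearOrder Λ] [WellFoundedLT Λ],
    ∃ Op : ℕ → Cond ℕ Λ → Cond ℕ Λ → Cond ℕ Λ, ∀ N : Set (Cond ℕ Λ), N.Countable → N.Nonempty →
      (∀ k, ∀ a ∈ N, ∀ b ∈ N, Op k a b ∈ N) → CloG N)

/-- LOW: induction on lower sets of a countable well order. -/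
def LowStmt : Prop :=
  ∀ (Λ : Type) [LinearOrder Λ] [WellFoundedLT Λ] [Countable Λ] (P : Set Λ → Prop), P ∅ →
    (∀ δ, P (Iio δ) → P (Iic δ)) →
    (∀ j : ℕ → Λ, StrictMono j → (∀ n, P (Iio (j n))) → P (⋃ n, Iio (j n))) →
    ∀ J, IsLowerSet J → P J

/-! ## Miller side -/

/-- ST: construction of a superperfect tree at the coordinate `δ` over a family of states. -/
def StStmt : Prop :=
  ∀ (Λ Q : Type) [LinearOrder Λ] [WellFoundedLT Λ] [Countable Λ] [Countable Q] (δ : Λ)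
    (p : Cond ℕ Λ), p.Below (Iio δ) →
    ∀ (pos : Q → Cond ℕ Λ) (good : Pt ℕ Λ → Set Q) (Rel : Q → Q → Prop),
    DepFun (Iio δ) good → (∀ S, MeasurableSet {y | S ∈ good y}) →
    (∀ y ∈ p.body, ∀ S ∈ good y, y ∈ (pos S).On (Iio δ)) →
    (∀ y ∈ p.body, ∀ S ∈ good y, ∃ τ ∈ (pos S).T δ y, ∀ m : ℕ, ∃ a ≥ m, ∃ S' ∈ good y,
      Rel S S' ∧ pos S' ≤ pos S ∧ (pos S').T δ y ⊆ sub ((pos S).T δ y) (τ ++ [a])) →
    ∀ S0 : Pt ℕ Λ → Q, Meas S0 → DepFun (Iio δ) S0 → (∀ y ∈ p.body, S0 y ∈ good y) →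
    ∃ (p' : Cond ℕ Λ) (St : ℕ → Pt ℕ Λ → Q), p'.Below (Iic δ) ∧
      (∀ i < δ, ∀ y, p'.T i y = p.T i y) ∧ St 0 = S0 ∧ (∀ n, Meas (St n)) ∧
      (∀ n, DepFun (Iic δ) (St n)) ∧
      ∀ y ∈ p'.body, ∀ n, St n y ∈ good y ∧ Rel (St n y) (St (n + 1) y) ∧
        pos (St (n + 1) y) ≤ pos (St n y) ∧ y ∈ (pos (St n y)).On (Iic δ)

/-- LT: construction along an increasing sequence of lower sets. -/
def LtStmt : Prop :=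
  ∀ (Λ Q : Type) [LinearOrder Λ] [WellFoundedLT Λ] [Countable Λ] [Countable Q]
    (N : Set (Cond ℕ Λ)) (𝒟 : Set (Set (Cond ℕ Λ))), Clo N →
    ∀ J : ℕ → Set Λ, (∀ n, IsLowerSet (J n)) → Monotone J →
    (∀ n, RelS N 𝒟 (J n) (J (n + 1))) →
    ∀ (pos : Q → Cond ℕ Λ) (good : ℕ → Set Q) (Rel : ℕ → Q → Q → Prop),
    (∀ n, ∀ S ∈ good n, pos S ∈ N) →
    (∀ n p G, Gen N 𝒟 (J n) p G → ∀ y ∈ p.body, ∀ S ∈ good n, (pos S).restr (J n) ∈ G y →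
      ∃ S' ∈ good (n + 1), Rel n S S' ∧ pos S' ≤ pos S ∧ (pos S').restr (J n) ∈ G y) →
    ∀ p0 G0, Gen N 𝒟 (J 0) p0 G0 → ∀ S0 : Pt ℕ Λ → Q, Meas S0 → DepFun (J 0) S0 →
    (∀ y ∈ p0.body, S0 y ∈ good 0 ∧ (pos (S0 y)).restr (J 0) ∈ G0 y) →
    ∃ (p : Cond ℕ Λ) (St : ℕ → Pt ℕ Λ → Q), p.Below (⋃ n, J n) ∧
      (∀ i ∈ J 0, ∀ y, p.T i y = p0.T i y) ∧ St 0 = S0 ∧ (∀ n, Meas (St n)) ∧
      (∀ n, DepFun (J n) (St n)) ∧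
      ∀ y ∈ p.body, ∀ n, St n y ∈ good n ∧ Rel n (St n y) (St (n + 1) y) ∧
        pos (St (n + 1) y) ≤ pos (St n y) ∧ y ∈ (pos (St n y)).On (⋃ n, J n)

/-- REL1: successor step of the extension theorem (from ST). -/
def RelSucStmt : Prop :=
  ∀ (Λ : Type) [LinearOrder Λ] [WellFoundedLT Λ] [Countable Λ] (N : Set (Cond ℕ Λ)), Clo N →
    ∀ 𝒟 : Set (Set (Cond ℕ Λ)), 𝒟.Countable → ∀ δ : Λ, RelS N 𝒟 (Iio δ) (Iic δ)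

/-- REL2: limit step of the extension theorem (from LT). -/
def RelLimStmt : Prop :=
  ∀ (Λ : Type) [LinearOrder Λ] [WellFoundedLT Λ] [Countable Λ] (N : Set (Cond ℕ Λ)), Clo N →
    ∀ 𝒟 : Set (Set (Cond ℕ Λ)), 𝒟.Countable →
    ∀ J : ℕ → Set Λ, (∀ n, IsLowerSet (J n)) → Monotone J →
    (∀ n, RelS N 𝒟 (J n) (J (n + 1))) → RelS N 𝒟 (J 0) (⋃ n, J n)

/-- REL: extension theorem for generic conditions. -/
def RelStmt : Prop :=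
  ∀ (Λ : Type) [LinearOrder Λ] [WellFoundedLT Λ] [Countable Λ] (N : Set (Cond ℕ Λ)), Clo N →
    ∀ 𝒟 : Set (Set (Cond ℕ Λ)), 𝒟.Countable →
    Gen N 𝒟 ∅ (Cond.one ℕ Λ) (fun _ => {r | r ∈ N ∧ r.Below ∅}) ∧
    ∀ J J' : Set Λ, IsLowerSet J → IsLowerSet J' → J ⊆ J' → RelS N 𝒟 J J'

/-! ## Sacks side (proved in the Sacks part) -/

/-- ABS: for every requirement one condition is covered by finitely many conditions of the hull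
which meet the requirement at the same time. -/
def AbsStmt : Prop :=
  ∀ (I : Type) [LinearOrder I] [WellFoundedLT I],
    ∃ Op : ℕ → Cond (Fin 2) I → Cond (Fin 2) I → Cond (Fin 2) I,
    ∀ (Q : Type) [Preorder Q] [Countable Q] (N : Set (Cond (Fin 2) I)), N.Countable →
    (∀ k, ∀ a ∈ N, ∀ b ∈ N, Op k a b ∈ N) → ∀ E : ℕ → Cond (Fin 2) I → Q → Prop,
    (∀ k, ∀ s ∈ N, ∀ s' ∈ N, ∀ q q', E k s q → s' ≤ s → q' ≤ q → E k s' q') →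
    (∀ k, ∀ s ∈ N, ∀ q, ∃ s' ∈ N, s' ≤ s ∧ ∃ q' ≤ q, E k s' q') →
    ∀ s0 ∈ N, ∃ s1 ≤ s0, ∀ k q, ∃ q' ≤ q, ∃ F : List (Cond (Fin 2) I),
      (∀ s ∈ F, s ∈ N ∧ E k s q') ∧ ∀ x ∈ s1.body, ∃ s ∈ F, x ∈ s.body

/-- STAR. -/
def StarStmt : Prop :=
  ∀ (I Q : Type) [LinearOrder I] [WellFoundedLT I] [Preorder Q] [Countable Q]
    (A : Q → Set (Pt (Fin 2) I)), (∀ r, MeasurableSet (A r)) →
    ∀ (r0 : Q) (s0 : Cond (Fin 2) I), ∃ s1 ≤ s0, ∃ r1 ≤ r0, ∃ D : Set Q,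
      (∀ r ≤ r1, ∃ d ∈ D, d ≤ r) ∧
      ((∀ d ∈ D, s1.body ⊆ A d) ∨ ∀ d ∈ D, Disjoint s1.body (A d))

/-! ## General facts about the product -/

/-- The covering property of the product. -/
def Crn (I Λ : Type) [LinearOrder I] [LinearOrder Λ]
    (N' : Set (Cond ℕ Λ)) (N : Set (Cond (Fin 2) I)) : Prop :=
  ∀ L : Set Λ, IsLowerSet L → ∀ E : ℕ → Cond ℕ Λ → Cond (Fin 2) I → Prop,
    (∀ k, ∀ p ∈ N', ∀ p' ∈ N', ∀ s ∈ N, ∀ s' ∈ N, E k p s → p' ≤ p → s' ≤ s → E k p' s') →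
    (∀ k, ∀ p ∈ N', p.Below L → ∀ s ∈ N,
      ∃ p' ∈ N', p' ≤ p ∧ p'.Below L ∧ ∃ s' ∈ N, s' ≤ s ∧ E k p' s') →
    ∀ p ∈ N', p.Below L → ∀ s ∈ N, ∃ p' ≤ p, p'.Below L ∧ ∃ s' ≤ s,
      ∃ (R : ℕ → Cond ℕ Λ) (F : ℕ → List (Cond (Fin 2) I)) (c : ℕ → Pt ℕ Λ → ℕ),
        (∀ n, R n ∈ N' ∧ (R n).Below L) ∧ (∀ n, ∀ t ∈ F n, t ∈ N) ∧
        (∀ k, Measurable (c k)) ∧ (∀ k, DepFun L (c k)) ∧
        ∀ k, ∀ y ∈ p'.body, y ∈ (R (c k y)).body ∧ (∀ t ∈ F (c k y), E k (R (c k y)) t) ∧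
          ∀ x ∈ s'.body, ∃ t ∈ F (c k y), x ∈ t.body

/-- CRNC: countable index set on the Miller side (from ABS and REL). -/
def CrncStmt : Prop :=
  ∀ (I : Type) [LinearOrder I] [WellFoundedLT I],
    ∃ Op : ℕ → Cond (Fin 2) I → Cond (Fin 2) I → Cond (Fin 2) I,
    ∀ (Λ : Type) [LinearOrder Λ] [WellFoundedLT Λ] [Countable Λ]
      (N' : Set (Cond ℕ Λ)) (N : Set (Cond (Fin 2) I)), Clo N' → N.Countable →
      (∀ k, ∀ a ∈ N, ∀ b ∈ N, Op k a b ∈ N) → Crn I Λ N' N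

/-- CRN: arbitrary index sets (by transfer). -/
def CrnStmt : Prop :=
  ∀ (I Λ : Type) [LinearOrder I] [WellFoundedLT I] [LinearOrder Λ] [WellFoundedLT Λ],
    ∃ Op : ℕ → Cond (Fin 2) I → Cond (Fin 2) I → Cond (Fin 2) I,
    ∀ (N' : Set (Cond ℕ Λ)) (N : Set (Cond (Fin 2) I)), CloG N' → N.Countable →
      (∀ k, ∀ a ∈ N, ∀ b ∈ N, Op k a b ∈ N) → Crn I Λ N' N

/-- DICH: measurable sets are decided. -/
def DichStmt : Prop :=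
  ∀ (I Λ : Type) [LinearOrder I] [WellFoundedLT I] [LinearOrder Λ] [WellFoundedLT Λ]
    (L : Set Λ), IsLowerSet L → ∀ X : Set (Pt ℕ Λ × Pt (Fin 2) I), MeasurableSet X → DepP L X →
    ∀ (p : Cond ℕ Λ) (s : Cond (Fin 2) I), p.Below L → ∃ p' ≤ p, p'.Below L ∧ ∃ s' ≤ s,
      p'.body ×ˢ s'.body ⊆ X ∨ Disjoint (p'.body ×ˢ s'.body) X

/-- CONST: measurable functions with countably many values are constant. -/
def ConstStmt : Prop :=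
  ∀ (I Λ : Type) [LinearOrder I] [WellFoundedLT I] [LinearOrder Λ] [WellFoundedLT Λ]
    (L : Set Λ), IsLowerSet L → ∀ f : Pt ℕ Λ × Pt (Fin 2) I → ℕ, Measurable f →
    (∀ y y' x, (∀ i ∈ L, y i = y' i) → f (y, x) = f (y', x)) →
    ∀ (p : Cond ℕ Λ) (s : Cond (Fin 2) I), p.Below L → ∃ p' ≤ p, p'.Below L ∧ ∃ s' ≤ s, ∃ n,
      ∀ y ∈ p'.body, ∀ x ∈ s'.body, f (y, x) = n

/-- BND: the Sacks side is bounding over the Miller side. -/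
def BndStmt : Prop :=
  ∀ (I Λ : Type) [LinearOrder I] [WellFoundedLT I] [LinearOrder Λ] [WellFoundedLT Λ]
    (L : Set Λ), IsLowerSet L → ∀ f : ℕ → Pt ℕ Λ × Pt (Fin 2) I → ℕ, (∀ k, Measurable (f k)) →
    (∀ k y y' x, (∀ i ∈ L, y i = y' i) → f k (y, x) = f k (y', x)) →
    ∀ (p : Cond ℕ Λ) (s : Cond (Fin 2) I), p.Below L → ∃ p' ≤ p, p'.Below L ∧ ∃ s' ≤ s,
      ∃ g : ℕ → Pt ℕ Λ → ℕ, (∀ k, Measurable (g k)) ∧ (∀ k, DepFun L (g k)) ∧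
        ∀ k, ∀ y ∈ p'.body, ∀ x ∈ s'.body, f k (y, x) ≤ g k y

/-- STEM: the splitting stem at one coordinate is constant. -/
def StemStmt : Prop :=
  ∀ (Λ : Type) [LinearOrder Λ] [WellFoundedLT Λ] (L : Set Λ), IsLowerSet L → ∀ j ∈ L,
    ∀ p : Cond ℕ Λ, p.Below L → ∃ p' ≤ p, p'.Below L ∧ ∃ σ, Stem p' j σ

/-! ## Reaping -/

/-- RW. -/
def RwStmt : Prop :=
  ∀ (I Λ : Type) [LinearOrder I] [WellFoundedLT I] [LinearOrder Λ] [WellFoundedLT Λ]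
    [Countable Λ] (L : Set Λ), IsLowerSet L → Reap I Λ L → Reapw I Λ L

/-- JOIN: joining conditions above the successors of one splitting node. -/
def JoinStmt : Prop :=
  ∀ (Λ : Type) [LinearOrder Λ] [WellFoundedLT Λ] (j : Λ) (σ : Node) (p0 : Cond ℕ Λ),
    p0.Below (Iio j) → ∀ (a : ℕ → Pt ℕ Λ → ℕ) (P : ℕ → Cond ℕ Λ),
    (∀ i, Measurable (a i)) → (∀ i, DepFun (Iio j) (a i)) →
    (∀ y ∈ p0.body, StrictMono fun i => a i y) →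
    (∀ i, ∀ m < j, ∀ y, (P i).T m y = p0.T m y) →
    (∀ i, ∀ y ∈ p0.body, ∀ ρ ∈ (P i).T j y, ρ <+: σ ++ [a i y] ∨ σ ++ [a i y] <+: ρ) →
    ∀ B : Set ℕ, B.Infinite → ∀ p2 ≤ p0, p2.Below (Iio j) →
    ∃ P' : Cond ℕ Λ, Stem P' j σ ∧ (∀ m < j, ∀ y, P'.T m y = p2.T m y) ∧
      (∀ y ∈ P'.body, ∃ i ∈ B, y ∈ (P i).body ∧ y j σ.length = a i y) ∧
      ∀ L : Set Λ, j ∈ L → IsLowerSet L → (∀ i, (P i).Below L) → P'.Below L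

/-- EX: one splitting node is decided, without changing it. -/
def ExStmt : Prop :=
  ∀ (I Λ : Type) [LinearOrder I] [WellFoundedLT I] [LinearOrder Λ] [WellFoundedLT Λ]
    [Countable Λ] (j : Λ), Reap I Λ (Iio j) → Reapw I Λ (Iio j) →
    ∀ L : Set Λ, IsLowerSet L → j ∈ L →
    ∀ F : ℕ → Set (Pt ℕ Λ × Pt (Fin 2) I), (∀ k, MeasurableSet (F k)) → (∀ k, DepP L (F k)) →
    ∀ (p : Cond ℕ Λ) (s : Cond (Fin 2) I) (σ : Node), p.Below L → Stem p j σ →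
    ∀ B : Set ℕ, B.Infinite →
    ∃ p' ≤ p, p'.Below L ∧ Stem p' j σ ∧ ∃ s' ≤ s, ∃ B' ⊆ B, B'.Infinite ∧ ∃ μ : Bool,
      ∀ k ∈ B', ∃ ι : Pt ℕ Λ → ℕ, Measurable ι ∧ DepFun (Iio j) ι ∧
        ∀ y ∈ p'.body, ∀ x ∈ s'.body, ι y ≤ y j σ.length → ((y, x) ∈ F k ↔ μ = true)

/-- The sets `W k` for a condition of the Sacks side and a colour. -/
def Wf {I Λ : Type} [LinearOrder I] (F : ℕ → Set (Pt ℕ Λ × Pt (Fin 2) I)) (s : Cond (Fin 2) I)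
    (μ : Bool) (k : ℕ) : Set (Pt ℕ Λ) :=
  {y | ∀ x ∈ s.body, ((y, x) ∈ F k ↔ μ = true)}

/-- PRE: the Sacks side and the colour are fixed. -/
def PreStmt : Prop :=
  ∀ (I Λ : Type) [LinearOrder I] [WellFoundedLT I] [LinearOrder Λ] [WellFoundedLT Λ]
    [Countable Λ] (L : Set Λ), IsLowerSet L → ∀ lev : ℕ → Λ, (∀ n, lev n ∈ L) →
    (∀ n, Reap I Λ (Iio (lev n))) →
    ∀ F : ℕ → Set (Pt ℕ Λ × Pt (Fin 2) I), (∀ k, MeasurableSet (F k)) → (∀ k, DepP L (F k)) →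
    ∀ (p : Cond ℕ Λ) (s : Cond (Fin 2) I), p.Below L → ∀ B : Set ℕ, B.Infinite →
    ∃ s1 ≤ s, ∃ (μ : Bool) (N : Set (Cond ℕ Λ)) (𝓑 : Set (Set ℕ)), ∃ P1 ≤ p, ∃ b1 ⊆ B,
      Pre N L lev (Wf F s1 μ) 𝓑 P1 b1

/-- SEQM: sequence of finite and infinite parts which performs all tasks. -/
def SeqmStmt : Prop :=
  ∀ (X T : Type) [Countable X] [Countable T] (𝓑 : Set (Set ℕ)) (V : X → Set ℕ → Prop)
    (Nx : T → X → X → Finset ℕ → Prop), (∀ x A A', A ⊆ A' → V x A' → V x A) →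
    (∀ b ∈ 𝓑, b.Infinite) → (∀ b ∈ 𝓑, ∀ m, b ∩ Ioi m ∈ 𝓑) → ∀ b0 ∈ 𝓑,
    (∀ t x (c : Finset ℕ), ∀ b ∈ 𝓑, b ⊆ b0 → V x (↑c ∪ b) →
      ∃ x', ∃ b' ∈ 𝓑, b' ⊆ b ∧ Nx t x x' c ∧ V x' (↑c ∪ b')) →
    ∃ (c : ℕ → Finset ℕ) (b : ℕ → Set ℕ), c 0 = ∅ ∧ b 0 = b0 ∧ Monotone c ∧ (∀ m, b m ∈ 𝓑) ∧
      (∀ m, (↑(c m) : Set ℕ) ∪ b m ⊆ b0) ∧
      (∀ m, (↑(c (m + 1)) : Set ℕ) ∪ b (m + 1) ⊆ ↑(c m) ∪ b m) ∧
      (⋃ m, (↑(c m) : Set ℕ)).Infinite ∧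
      ∀ x m t, V x (↑(c m) ∪ b m) → ∃ m' > m, ∃ x', Nx t x x' (c m') ∧ V x' (↑(c m') ∪ b m')

/-- SEQP: the same for the states of lemma PRE. -/
def SeqpStmt : Prop :=
  ∀ (Λ : Type) [LinearOrder Λ] [WellFoundedLT Λ] [Countable Λ] (N : Set (Cond ℕ Λ)) (L : Set Λ)
    (lev : ℕ → Λ) (W : ℕ → Set (Pt ℕ Λ)) (𝓑 : Set (Set ℕ)) (P1 : Cond ℕ Λ) (b1 : Set ℕ),
    IsLowerSet L → Pre N L lev W 𝓑 P1 b1 →
    ∃ (c : ℕ → Finset ℕ) (b : ℕ → Set ℕ),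
      (∃ P ≤ P1, ∃ n σ, Inv N L W P (lev n) σ (↑(c 0) ∪ b 0)) ∧ c 0 = ∅ ∧ Monotone c ∧
      (∀ m, (↑(c m) : Set ℕ) ⊆ b1) ∧ (⋃ m, (↑(c m) : Set ℕ)).Infinite ∧
      ∀ P ≤ P1, ∀ n σ m, Inv N L W P (lev n) σ (↑(c m) ∪ b m) → ∀ a0,
        RDense N (Iio (lev n)) (Est N L lev W c b P n σ m a0) P

/-- MILS: successor case. -/
def MilsStmt : Prop :=
  ∀ (Λ : Type) [LinearOrder Λ] [WellFoundedLT Λ] [Countable Λ] (N : Set (Cond ℕ Λ)) (δ : Λ)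
    (W : ℕ → Set (Pt ℕ Λ)) (𝓑 : Set (Set ℕ)) (P1 : Cond ℕ Λ) (b1 : Set ℕ),
    Pre N (Iic δ) (fun _ => δ) W 𝓑 P1 b1 →
    ∃ p' ≤ P1, p'.Below (Iic δ) ∧ ∃ B' ⊆ b1, B'.Infinite ∧ ∀ k ∈ B', p'.body ⊆ W k

/-- MILL: limit case. -/
def MillStmt : Prop :=
  ∀ (Λ : Type) [LinearOrder Λ] [WellFoundedLT Λ] [Countable Λ] (N : Set (Cond ℕ Λ)) (j : ℕ → Λ)
    (W : ℕ → Set (Pt ℕ Λ)) (𝓑 : Set (Set ℕ)) (P1 : Cond ℕ Λ) (b1 : Set ℕ), StrictMono j →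
    Pre N (⋃ n, Iio (j n)) j W 𝓑 P1 b1 →
    ∃ p' ≤ P1, p'.Below (⋃ n, Iio (j n)) ∧ ∃ B' ⊆ b1, B'.Infinite ∧ ∀ k ∈ B', p'.body ⊆ W k

/-- R0. -/
def R0Stmt : Prop :=
  ∀ (I Λ : Type) [LinearOrder I] [WellFoundedLT I] [LinearOrder Λ] [WellFoundedLT Λ],
    Reap I Λ ∅

/-- REAPC: countable index set on the Miller side. -/
def ReapcStmt : Prop :=
  ∀ (I Λ : Type) [LinearOrder I] [WellFoundedLT I] [LinearOrder Λ] [WellFoundedLT Λ]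
    [Countable Λ] (L : Set Λ), IsLowerSet L → Reap I Λ L

/-- REAPG: the final theorem of this part. -/
def ReapgStmt : Prop :=
  ∀ (I Λ : Type) [LinearOrder I] [WellFoundedLT I] [LinearOrder Λ] [WellFoundedLT Λ],
    Reap I Λ univ

end Pool.Agent.Men.RR
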